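import Mathlib
import Pool.Prelude.Def_F_d8722541
import Pool.Agent.helper6.LD.Defs

/-!
# Project ev (MP_5a4a8e_nt): maximal sums of pairwise coprime sets and a quasi Riemann hypothesis

`G n` = the maximal sum of a pairwise coprime subset of `{1, .., n}`, `H n = ∑_{p < n} p + n π(√n)`.

THEOREM. `G n ≥ H n - n^(3/2 - c)` for all large `n` and some `c > 0` if and only if there is `θ < 1` such that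
`ζ(s) ≠ 0` for `Re s > θ`. So the conjecture of Erdős, `G n > H n - n^(1 + o(1))`, implies a quasi Riemann hypothesis.

## Rules

Every statement `XX_stmt` of `Spec.lean` is proved in `Pool/Agent/<seat>/EV/XX.lean`: `import Pool.Agent.helper6.EV.Spec`,
`namespace Pool.Agent.EV`, the `open` line of the spec, `theorem XX (h : YY_stmt) ... : XX_stmt`; hypotheses: any other
statements (no circles). Auxiliary lemmas are prefixed `XX_`. No sorry, no double quotes, no `congr!`, no `convert`.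

## Notation

`pc x` = number of primes `≤ x` (`x` real), `pe u = pc (e^u)`. Useful proved files (namespace `Pool.Agent.helper6.LD`, `zc`, `wt` in
`helper6/LD/Defs.lean`): `helper57/LD/Z.lean` (`zeta_expansion`), `helper30/LD/T4.lean` (`turan`), `helper30/LD/J.lean` (`zc_disc`),
`helper30/LD/J0.lean` (`zeros_finite`, `order_pos`, `h30_zc_eq`, `zc_mono`), `helper13/LD/E3.lean` (`expansion`), `helper13/LD/E2.lean`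
(`coeff_bound`), `helper85/LD/G1.lean` (`zeta_growth`, `zeta_lower`). Modules may import them.
-/

set_option autoImplicit false

namespace Pool.Agent.EV

open N1f72dd46 Filter MeasureTheory Complex Metric Pool.Agent.helper6.LD

/-! ## Definitions -/

/-- the number of primes `≤ x` -/
noncomputable def pc (x : ℝ) : ℝ := (Nat.primeCounting ⌊x⌋₊ : ℝ)

/-- `π(e^u)` -/
noncomputable def pe (u : ℝ) : ℝ := pc (Real.exp u)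

/-- a power saving in the theorem of Erdős and van Lint -/
def PS : Prop := ∃ c : ℝ, 0 < c ∧ ∀ᶠ n : ℕ in atTop,
  (H n : ℝ) - (n : ℝ) ^ (3 / 2 - c : ℝ) ≤ (G n : ℝ)

/-- `ζ` has no zeros in a half plane `Re s > θ`, `θ < 1` -/
def QRH : Prop := ∃ θ : ℝ, θ < 1 ∧ ∀ s : ℂ, θ < s.re → riemannZeta s ≠ 0

/-- second differences of `π(x)` in `log x` are bounded below by `-C x^(1-c)` -/
def SD (c C x0 : ℝ) : Prop := 0 < c ∧ c ≤ 1 / 2 ∧ 0 < C ∧ 1 ≤ x0 ∧ ∀ X l : ℝ, x0 ≤ X → 0 ≤ l →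
  l ≤ 1 / 2 → 2 * pc X - pc (X * Real.exp (-l)) - pc (X * Real.exp l) ≤ C * X ^ (1 - c)

/-- the point `4 + i t` -/
noncomputable def s4 (t : ℝ) : ℂ := (4 : ℝ) + t * I

/-- `∫_0^∞ π(e^(u+a)) u^k e^(-su) du` -/
noncomputable def Jt (s : ℂ) (k : ℕ) (a : ℝ) : ℂ :=
  ∫ u in Set.Ioi (0 : ℝ), (pe (u + a) : ℂ) * (u : ℂ) ^ k * Complex.exp (-s * u)

/-- `(1/m!) ∑_p (log p)^m p^(-s)` -/
noncomputable def Bp (s : ℂ) (m : ℕ) : ℂ :=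
  ∑' p : Nat.Primes, (Real.log (p : ℕ) : ℂ) ^ m / (m.factorial : ℂ) * ((p : ℕ) : ℂ) ^ (-s)

/-- the second difference `(2 J(k, 0) - J(k, l) - J(k, -l)) / k!`, `l = π / t`, at `4 + i t` -/
noncomputable def Tk (t : ℝ) (k : ℕ) : ℂ :=
  (2 * Jt (s4 t) k 0 - Jt (s4 t) k (Real.pi / t) - Jt (s4 t) k (-(Real.pi / t))) / (k.factorial : ℂ)

/-- the sum over the zeros in the closed ball with centre `4 + i t` and radius `15/4` -/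
noncomputable def Zs (t : ℝ) (k : ℕ) : ℂ :=
  ∑ᶠ ρ ∈ {ρ : ℂ | ρ ∈ closedBall (s4 t) (15 / 4) ∧ riemannZeta ρ = 0},
    (analyticOrderNatAt riemannZeta ρ : ℂ) * ((s4 t - ρ) ^ k)⁻¹

/-! ## Part I: combinatorics -/

/-- I1. The maximum is attained. (`Finset.exists_mem_eq_sup`, `Finset.le_sup`; the empty set is admissible.) -/
def I1_stmt : Prop := ∀ n : ℕ, (∃ S : Finset ℕ, IsAdmissible n S ∧ G n = ∑ a ∈ S, a) ∧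
  ∀ S : Finset ℕ, IsAdmissible n S → ∑ a ∈ S, a ≤ G n

/-- I2. Structure of an optimal set `S` (I1). `a p` = the element of `S` with smallest prime factor `p` if `p` is prime and there is one,
else `0` (unique, as `S` is pairwise coprime). Let `r = Nat.sqrt n`. The elements `≠ 1` of `S` whose smallest prime factor `p` is `> r` are primes
(`minFac ^ 2 ≤ a ≤ n < (r+1)^2` for composite `a`), so `∑ S ≤ 1 + ∑_{p ≤ r} a p + ∑_{r < p ≤ n} p ≤ 1 + ∑_{p ≤ r} a p + ∑_{p < n} p + n`, and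
`H n = ∑_{p < n} p + n π(r)`, `π(r)` = number of primes in `Icc 1 r`. Uses I1. -/
def I2_stmt : Prop := ∀ n : ℕ, 1 ≤ n → ∃ a : ℕ → ℕ,
  (∀ p, a p = 0 ∨ (p.Prime ∧ 1 < a p ∧ a p ≤ n ∧ (a p).minFac = p)) ∧
  (∀ p p', p ≠ p' → a p ≠ 0 → a p' ≠ 0 → Nat.Coprime (a p) (a p')) ∧
  (∑ p ∈ (Finset.Icc 1 (Nat.sqrt n)).filter Nat.Prime, ((n : ℤ) - (a p : ℤ))) ≤
    (H n : ℤ) - (G n : ℤ) + n + 1

/-- I3. Let `x = √n`, `a` from I2 (all terms are `≥ 0`), `P` = the primes in `(x e^(-h-l), x e^(-h)]` (so `p ≤ x`, `p ≤ Nat.sqrt n`). If `p ∈ P` and `n - a p < n h / 2`, then `m = a p / p`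
satisfies `x < m < x e^(h+l)`: `m > x² (1 - h/2) / (x e^(-h)) = x e^h (1 - h/2) ≥ x` as `(1 + h)(1 - h/2) ≥ 1`; `m ≤ n / p`. All prime factors of `m` are
`≥ p > x e^(-1)` (`minFac (a p) = p`), so if `m` were composite, `x e ≥ m ≥ p² > x² e^(-2)`, `x < e³`. So `m` is a prime `q`, and different `p` give different `q`
(coprimality). So at least `#P - (pc (x e^(h+l)) - pc x)` elements `p ∈ P` have `n - a p ≥ n h / 2`. Uses I2. -/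
def I3_stmt : Prop := ∀ (n : ℕ) (x h l : ℝ), 0 ≤ x → x ^ 2 = n → Real.exp 3 < x → 0 < h → 0 ≤ l →
  h + l ≤ 1 →
  n * h / 2 * (pc (x * Real.exp (-h)) - pc (x * Real.exp (-(h + l))) -
    (pc (x * Real.exp (h + l)) - pc x)) ≤ (H n : ℝ) - G n + n + 1

/-- I4. Elementary facts on `pc`: monotone; at most one prime per integer; `pc x = 0` for `x < 2`. -/
def I4_stmt : Prop := Monotone pc ∧ (∀ x, 0 ≤ pc x) ∧ (∀ x y : ℝ, 0 ≤ x → x ≤ y → pc y - pc x ≤ y - x + 1) ∧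
  (∀ x : ℝ, 0 ≤ x → pc x ≤ x) ∧ ∀ x : ℝ, x < 2 → pc x = 0

/-- I5. Let `0 < c ≤ 1/2` (decrease `c`) with `H n - G n ≤ n^(3/2-c)` for `n ≥ n0`. For large real `X` let `n = ⌊X²⌋₊`, `x = √n`, so `X - 1 ≤ x ≤ X`, `pc x = pc X` (`Nat.sqrt n = ⌊X⌋₊`),
`h = n^(-c/2)`. I3: `pc (x e^(-h)) - pc (x e^(-h-l)) - pc (x e^(h+l)) + pc x ≤ (2/h) (n^(1/2-c) + 2)`. By I4 and `1 - e^(-h) ≤ h`, `e^l (e^h - 1) ≤ 3h` (`h, l ≤ 1/2`):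
`2 pc x - pc (x e^(-l)) - pc (x e^l) ≤ (2/h) (n^(1/2-c) + 2) + (x h + 1) + (3 x h + 1)` (`pc (x e^(-h-l)) ≤ pc (x e^(-l))`), which is `≤ 12 n^(1/2-c/2) ≤ 12 X^(1-c)` for large `X`. Finally
`pc X = pc x`, `pc (X e^(-l)) ≥ pc (x e^(-l))`, `pc (X e^l) ≥ pc (x e^l)`. Uses I3, I4. -/
def I5_stmt : Prop := PS → ∃ c C x0 : ℝ, SD c C x0

/-- I6. The conjecture implies `PS` (`c = 1/4`: `|o n| ≤ 1/4` for large `n`). -/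
def I6_stmt : Prop := (∃ o : ℕ → ℝ, o =o[atTop] (1 : ℕ → ℝ) ∧
  ∀ᶠ n : ℕ in atTop, (G n : ℝ) > (H n : ℝ) - (n : ℝ) ^ (1 + o n)) → PS

/-! ## Part II: from second differences to a zero free half plane -/

/-- IN. Integrability: `0 ≤ pe u ≤ e^u`, `pe u = 0` for `u < log 2`; `|f| ≤ e^(|a|) u^k e^(-3u)` (measurable: `pe` is monotone). Value `∫_0^∞ u^k e^(-3u) du = k! / 3^(k+1)`. Uses I4. -/
def IN_stmt : Prop := (∀ u : ℝ, 0 ≤ pe u ∧ pe u ≤ Real.exp u) ∧ Monotone pe ∧ (∀ u : ℝ, u < Real.log 2 → pe u = 0) ∧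
  (∀ (s : ℂ) (k : ℕ) (a : ℝ), s.re = 4 → IntegrableOn
    (fun u : ℝ => (pe (u + a) : ℂ) * (u : ℂ) ^ k * Complex.exp (-s * u)) (Set.Ioi 0)) ∧
  (∀ (k : ℕ) (a : ℝ), IntegrableOn (fun u : ℝ => pe (u + a) * u ^ k * Real.exp (-4 * u)) (Set.Ioi 0)) ∧
  ∀ (k : ℕ), (∫ u in Set.Ioi (0 : ℝ), pe u * u ^ k * Real.exp (-4 * u)) ≤ k.factorial / 3 ^ (k + 1)

/-- SH. Shift: substitute `v = u + a`: `∫_a^∞ pe v (v - a)^k e^(-s(v-a)) dv`, and `pe v = 0` for `v < log 2` (`|a| ≤ 1/2 < log 2`), so the integral is over `(0, ∞)`; binomial theorem.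
Uses IN, I4. -/
def SH_stmt : Prop := ∀ (s : ℂ) (k : ℕ) (a : ℝ), s.re = 4 → |a| ≤ 1 / 2 →
  Jt s k a = Complex.exp (s * a) *
    ∑ j ∈ Finset.range (k + 1), (k.choose j : ℂ) * (-(a : ℂ)) ^ j * Jt s (k - j) 0

/-- JB. `pe u = ∑_p 1[log p ≤ u]` and `∫_L^∞ u^k e^(-su) du = e^(-sL) ∑_i (k!/(k-i)!) L^(k-i) / s^(i+1)` (`L ≥ 0`, `Re s = 4`; integration by parts, induction on `k`). Interchange: `hasSum_integral_of_summable_integral_norm` or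
`integral_tsum`; summability: `∑_p (log p)^m p^(-4)`. -/
def JB_stmt : Prop := ∀ (s : ℂ) (k : ℕ), s.re = 4 →
  Jt s k 0 = (k.factorial : ℂ) * ∑ i ∈ Finset.range (k + 1), (s ^ (i + 1))⁻¹ * Bp s (k - i)

/-- TL. Lower bound. Let `b m = Jt s m 0 / m!`, `s = 4 + i t`, `l = π/t ≤ 1/2`. SH: `Jt s k a / k! = e^(sa) ∑_j ((-a)^j / j!) b (k-j)`, `e^(sl) = -e^(4l)`, `e^(-sl) = -e^(-4l)`, so
`Tk = (2 + e^(4l) + e^(-4l)) b k - 2 l sinh(4l) b (k-1) + ∑_{j ≥ 2} (e^(4l) (-1)^j + e^(-4l)) (l^j / j!) b (k-j)`. With `Q = max` of the bounds: `|b m| ≤ Q W^m` for `m ≤ k`, `W ≥ 1/4`: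
`|Tk| ≥ 4 |b k| - l² Q W^k (31·4 + 8 ∑_{j≥2} 4^j (1/2)^(j-2) / j!) ≥ 4 |b k| - 400 l² Q W^k`. By JB `b m = ∑_i s^(-(i+1)) Bp s (m-i)`, `|s| ≥ t ≥ 8`: `|b m| ≤ 2 C1 (k+1)² log t W^m / t` and
`|b k| ≥ |Bp s k| / |s| - 8 C1 (k+1)² log t W^k / t²`, `|s| ≤ 2t`. Uses SH, JB. -/
def TL_stmt : Prop := ∀ C1 : ℝ, 0 < C1 → ∃ C2 : ℝ, 0 < C2 ∧ ∀ (t W : ℝ) (k : ℕ), 8 ≤ t → 1 / 4 ≤ W →
  (∀ m ≤ k, ‖Bp (s4 t) m‖ ≤ C1 * (m + 1) ^ 2 * Real.log t * W ^ m) →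
  2 * ‖Bp (s4 t) k‖ / t - C2 * (k + 1) ^ 2 * Real.log t * W ^ k / t ^ 2 ≤ ‖Tk t k‖

/-- MS1. The real second difference. Let `b m = (1/m!) ∫_0^∞ pe u u^m e^(-4u) du ∈ [0, 3^(-m-1)]` (IN), `φ(a) = (1/k!) ∫ pe (u+a) u^k e^(-4u) du = e^(4a) ∑_j ((-a)^j/j!) b (k-j)` (SH with `s = 4`; the integrals are real).
`φ(l) + φ(-l) - 2 φ(0) = (e^(4l) + e^(-4l) - 2) b k - 2 l sinh(4l) b (k-1) + ∑_{j≥2} ((-1)^j e^(4l) + e^(-4l)) (l^j/j!) b (k-j) ≤ 150 l² 3^(-k)` (`e^(4l) + e^(-4l) - 2 ≤ 61 l²`, `2 l sinh(4l) ≤ 31 l²`, `e^(4l) + e^(-4l) ≤ 8`,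
`l ≤ 1/2`; `∑_{j≥2} 3^j (1/2)^(j-2) / j! ≤ 18`). Uses IN, SH. -/
def MS1_stmt : Prop := ∀ (k : ℕ) (l : ℝ), 0 ≤ l → l ≤ 1 / 2 →
  (∫ u in Set.Ioi (0 : ℝ), pe (u + l) * u ^ k * Real.exp (-4 * u)) +
  (∫ u in Set.Ioi (0 : ℝ), pe (u - l) * u ^ k * Real.exp (-4 * u)) -
  2 * (∫ u in Set.Ioi (0 : ℝ), pe u * u ^ k * Real.exp (-4 * u)) ≤
    k.factorial * (150 * l ^ 2 / 3 ^ k)

/-- MS. Upper bound by positivity. Let `D u = 2 pe u - pe (u-l) - pe (u+l)`, `l = π/t ≤ 1/2`, `u0 = log x0`. `|Tk| ≤ (1/k!) ∫_0^∞ |D u| u^k e^(-4u) du`. For `u ≥ u0`: `D u ≤ C e^((1-c)u)`, so `|D u| ≤ 2 C e^((1-c)u) - D u`.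
So `∫_0^∞ |D| u^k e^(-4u) ≤ ∫_0^∞ 2 C e^((1-c)u) u^k e^(-4u) - ∫_0^∞ D u^k e^(-4u) + 2 ∫_0^{u0} |D| u^k e^(-4u)`; the first is `2 C k! / (3+c)^(k+1)`, the second is bounded by MS1, and `|D u| ≤ 4 e^(u0+1)` for `u ≤ u0`, so the
third is `≤ 8 e^(u0+1) u0^(k+1)` (times `1/k!`). `U = u0 + 1`. Uses IN, MS1. -/
def MS_stmt : Prop := ∀ c C x0 : ℝ, SD c C x0 → ∃ C3 U : ℝ, 0 < C3 ∧ 0 < U ∧ ∀ (t : ℝ) (k : ℕ), 8 ≤ t →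
  ‖Tk t k‖ ≤ C3 * (((3 + c) ^ k)⁻¹ + (t ^ 2)⁻¹ * (3 ^ k)⁻¹ + U ^ (k + 1) / k.factorial)

/-- PW. Prime powers. `∑' n, wt 4 k n n^(-it)` is the sum over all prime powers; the primes give `k Bp (4+it) k`. The others: `(log n)^(k-1)/(k-1)! ≤ n^(10/3) / (10/3)^(k-1)` (`x^j/j! ≤ e^x`), so the rest is
`≤ (10/3)^(-(k-1)) ∑_{n not prime} Λ(n) n^(-2/3)`, and this series converges: `n = p^a`, `a ≥ 2`, `∑_p ∑_{a≥2} (log p) p^(-2a/3) < ∞`. (Compare the proof of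
`ArithmeticFunction.vonMangoldt.summable_residueClass_non_primes_div` in Mathlib; or `Chebyshev.psi_sub_theta_le_mul_sqrt` and dyadic blocks.) -/
def PW_stmt : Prop := ∃ C : ℝ, 0 < C ∧ ∀ (t : ℝ) (k : ℕ), 1 ≤ k →
  ‖(k : ℂ) * Bp (s4 t) k - ∑' n : ℕ, (wt 4 k n : ℂ) * (n : ℂ) ^ (-(t * I))‖ ≤ C * ((10 / 3) ^ k)⁻¹

/-- CO. Combination of PW and `zeta_expansion` (`M = 4`). Uses PW. -/
def CO_stmt : Prop := ∃ C : ℝ, 0 < C ∧ ∀ (t : ℝ) (k : ℕ), 6 ≤ t → 1 ≤ k →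
  ‖(k : ℂ) * Bp (s4 t) k + Zs t k‖ ≤ C * k ^ 2 * Real.log t * ((10 / 3) ^ k)⁻¹

/-- UB. `|Zs t k| ≤ zc(ball) W^k ≤ C log t W^k` (`zc_disc`, `M = 4`), CO; `m = 0`: `|Bp| ≤ ∑_p p^(-4) ≤ 1`, and `log t ≥ 1`. Uses CO. -/
def UB_stmt : Prop := ∃ C1 : ℝ, 0 < C1 ∧ ∀ (t W : ℝ), 6 ≤ t → 3 / 10 ≤ W →
  (∀ ρ : ℂ, ρ ∈ closedBall (s4 t) (15 / 4) → riemannZeta ρ = 0 → ‖(s4 t - ρ)⁻¹‖ ≤ W) →
  ∀ m : ℕ, ‖Bp (s4 t) m‖ ≤ C1 * (m + 1) ^ 2 * Real.log t * W ^ m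

/-- LE. Lens: `b = 1 - Re ρ ≥ 0`, `y = Im ρ - t`: `(3+b)² + y² ≤ 9 (1+η)²` gives `b² + y² ≤ 27 η`. -/
def LE_stmt : Prop := ∀ (t η : ℝ) (ρ : ℂ), 0 < η → η ≤ 1 → ρ.re ≤ 1 → ‖s4 t - ρ‖ ≤ 3 * (1 + η) →
  ‖ρ - ((1 : ℝ) + t * I)‖ ≤ 6 * Real.sqrt η

/-- LZ. Number of zeros near the line 1. `expansion` with `f = riemannZeta`, `c = 1 + r + it`, `R = 1/2`, `R' = 3/4`, `k = 1`, `B = C log t` (growth: `zeta_growth`; `|ζ(c)| ≥ 1 / ∑ n^(-1-r)`, a constant depending on `r`, e.g. from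
`ζ(c) ∑ μ(n) n^(-c) = 1`, or the Euler product; `t ≥ t0(r)`): `|ζ'/ζ(c) + ∑ m_ρ (ρ - c)⁻¹| ≤ C' log t`, `C'` absolute, and `|ζ'/ζ(c)| ≤ ∑ Λ(n) n^(-1-r) ≤ log t` for `t ≥ t0(r)`. So `∑ m_ρ Re (1/(c-ρ)) ≤ (C'+1) log t`; all terms are `≥ 0` (`Re ρ ≤ 1`), and for
`|ρ - (1+it)| ≤ r` the term is `≥ r / (2r)² = 1/(4r)`. -/
def LZ_stmt : Prop := ∃ C : ℝ, 0 < C ∧ ∀ r : ℝ, 0 < r → r ≤ 1 / 8 → ∃ t0 : ℝ, ∀ t : ℝ, t0 ≤ t →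
  ({ρ : ℂ | ρ ∈ closedBall (((1 : ℝ) : ℂ) + t * I) r ∧ riemannZeta ρ = 0}.ncard : ℝ) ≤ C * r * Real.log t

/-- TU. Turán's method. Split the zeros of the ball (finite: `zeros_finite`): `N` = those with `|s - ρ| ≤ 3(1+η)`, the others contribute at most `zc(ball) (3(1+η))^(-k) ≤ C log t (3(1+η))^(-k)` (`zc_disc`). `ρ0 ∈ N` (`3(1+η) ≤ 15/4`), `|N| ≤ C' 6√η log t ≤ (log t)/30`
(LE, LZ with `r = 6√η`; `η ≤ η1`), so `4 |N| ≤ K`; `turan` with `δ = 1`, `b ρ` = the multiplicity (`order_pos`), `w ρ = (s-ρ)⁻¹`: `k ∈ [K, 2K]` and the factor `500^(-|N|) ≥ t^(-1/4)` (`log 500 < 6.3`). (Zeros have real part `≤ 1`: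
`riemannZeta_ne_zero_of_one_le_re`.) Uses LE, LZ. -/
def TU_stmt : Prop := ∃ η1 C : ℝ, 0 < η1 ∧ 0 < C ∧ ∀ η : ℝ, 0 < η → η ≤ η1 → ∃ t0 : ℝ, ∀ t : ℝ, t0 ≤ t →
  ∀ K : ℕ, Real.log t ≤ K → ∀ ρ0 : ℂ, riemannZeta ρ0 = 0 → ‖s4 t - ρ0‖ ≤ 3 * (1 + η) →
  ∃ k : ℕ, K ≤ k ∧ k ≤ 2 * K ∧
    t ^ (-(1 / 4) : ℝ) * ‖(s4 t - ρ0)⁻¹‖ ^ k ≤ ‖Zs t k‖ + C * Real.log t * ((3 * (1 + η)) ^ k)⁻¹

/-- CN0. The final inequality (`L = log t`, `L/η ≤ k ≤ 3L/η`, `W⁻¹ ≤ 3(1+η/16)`). Divide by `W^k` and multiply by `k t^(5/4)`: each of the six terms tends to zero: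
(1) `k L t^(1/4) ((1+η/16)/(1+η))^k ≤ k L t^(1/4) exp(-(15/16) L/(1+η))`; (2) `(k+1)^3 L t^(1/4) (0.9 (1+η/16))^k ≤ .. e^(-0.09 k)`, `k ≥ 100 L`; (3) `(k+1)^3 L t^(-3/4)`; (4) `((1+η/16)/(1+c/3))^k ≤ exp(-2ηk) ≤ t^(-2)` as `c/3 ≥ 4η`;
(5) `t^(-3/4) (1+η/16)^k ≤ t^(-3/4+3/16)`; (6) `4^k U^(k+1)/k! ≤ U (4eU/k)^k ≤ U e^(-k) ≤ U t^(-100)` for large `t` (`k! ≥ (k/e)^k`). -/
def CN0_stmt : Prop := ∀ C5 U c η : ℝ, 0 < C5 → 0 < U → 0 < c → 0 < η → η ≤ 1 / 100 → η ≤ c / 12 →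
  ∃ t0 : ℝ, ∀ (t W : ℝ) (k : ℕ), t0 ≤ t → Real.log t / η ≤ k → (k : ℝ) ≤ 3 * Real.log t / η →
  (3 * (1 + η / 16))⁻¹ ≤ W →
  C5 * (Real.log t / t * ((3 * (1 + η)) ^ k)⁻¹ + (k + 1) ^ 2 * Real.log t / t * ((10 / 3) ^ k)⁻¹ +
    (k + 1) ^ 2 * Real.log t * W ^ k / t ^ 2 + ((3 + c) ^ k)⁻¹ + (t ^ 2)⁻¹ * (3 ^ k)⁻¹ +
    U ^ (k + 1) / k.factorial) < 2 * t ^ (-(5 / 4) : ℝ) * W ^ k / k

/-- NO. No zeros near the line 1. `η = min (η1, 1/100, c/12)`, `δ = 3η/16`. Suppose a zero `ρ0` with `t = Im ρ0 ≥ T0`, `Re ρ0 > 1 - δ`: `|s - ρ0| < 3(1+η/16) ≤ 10/3`. Among the (finitely many) zeros in the ball choose `ρ1` with minimal `|s - ρ|`, `W = 1/|s-ρ1|`; TU for `ρ1`,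
`K = ⌈log t / η⌉₊`: `k`. By CO and TU: `k |Bp k| ≥ t^(-1/4) W^k - C log t (3(1+η))^(-k) - C k² log t (10/3)^(-k)`; UB, TL: `|Tk| ≥ 2 |Bp k| / t - C2 (k+1)² log t W^k / t²`; MS; contradiction to CN0 (divide by `k t`). Uses CO, UB, TL, TU, MS, CN0. -/
def NO_stmt : Prop := (∃ c C x0 : ℝ, SD c C x0) → ∃ δ T0 : ℝ, 0 < δ ∧
  ∀ ρ : ℂ, riemannZeta ρ = 0 → T0 ≤ ρ.im → ρ.re ≤ 1 - δ

/-- QR. The zeros with `1/2 ≤ Re ρ ≤ 1`, `|Im ρ| ≤ |T0|` are finite in number (`zeros_finite`) and have real part `< 1`; zeros with `Im ρ ≤ -T0`: `ζ(conj s) = conj ζ(s)`. `θ` = the maximum of `1/2`, `1 - δ`, and the real parts of these finitely many zeros. -/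
def QR_stmt : Prop := (∃ δ T0 : ℝ, 0 < δ ∧ ∀ ρ : ℂ, riemannZeta ρ = 0 → T0 ≤ ρ.im → ρ.re ≤ 1 - δ) → QRH

/-! ## Part III: from the zero free half plane to a power saving -/

/-- `(s - 1) ζ(s)` -/
noncomputable def Zt : ℂ → ℂ := Function.update (fun s => (s - 1) * riemannZeta s) 1 1

/-- `∫_1^x (ψ(t) - t) dt` -/
noncomputable def Rx (x : ℝ) : ℝ := ∫ t in (1 : ℝ)..x, (Chebyshev.psi t - t)

/-- `-(Zt'/Zt(s) + 1) / (s (s+1))` -/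
noncomputable def Ph (s : ℂ) : ℂ := -(deriv Zt s / Zt s + 1) / (s * (s + 1))

/-- ZT. `Zt` is entire (removable singularity, `riemannZeta_residue_one`; compare `DirichletCharacter.LFunctionTrivChar₁` for the trivial character modulo 1), growth (`zeta_growth` for `|Im s| ≥ 1`; compactness for `1/8 ≤ Re s ≤ 2`, `|Im s| ≤ 1`; for `Re s ≥ 2`: `|ζ| ≤ 2`), lower
bound on `Re s = 2` (`zeta_lower`). -/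
def ZT_stmt : Prop := Differentiable ℂ Zt ∧ (∀ s, s ≠ 1 → Zt s = (s - 1) * riemannZeta s) ∧ Zt 1 = 1 ∧
  (∃ C : ℝ, 0 < C ∧ ∀ s : ℂ, 1 / 8 ≤ s.re → ‖Zt s‖ ≤ C * (1 + ‖s‖) ^ 2) ∧
  ∀ t : ℝ, 1 / 4 ≤ ‖Zt (2 + t * I)‖

/-- LD. For real `t` the ball with centre `c = 2 + it` and radius `R = 2 - θ` contains no zeros of `Zt`, and `|Zt z| ≤ e^B |Zt c|` there with `B = C log(3+|t|)` (ZT). `coeff_bound`: `|a_k| ≤ 6 B (k+1)² R^(-k-1)` for the Taylor coefficients `a_k` of `Zt'/Zt` at `c`; for `z = c - (2 - σ)`,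
`σ1 ≤ σ ≤ 2`: `|Zt'/Zt(z)| ≤ ∑ |a_k| (2-σ1)^k ≤ C' B` (`Complex.hasSum_taylorSeries_on_ball`). Uses ZT. -/
def LD_stmt : Prop := ∀ θ σ1 : ℝ, 1 / 2 ≤ θ → θ < σ1 → σ1 < 1 → (∀ s : ℂ, θ < s.re → riemannZeta s ≠ 0) →
  ∃ C : ℝ, 0 < C ∧ ∀ s : ℂ, σ1 ≤ s.re → s.re ≤ 2 →
    Zt s ≠ 0 ∧ ‖deriv Zt s / Zt s‖ ≤ C * Real.log (3 + |s.im|)

/-- RE. `-ζ'/ζ(s) = s ∫_1^∞ ψ(x) x^(-s-1) dx` for `Re s > 1` (`ArithmeticFunction.LSeries_vonMangoldt_eq_deriv_riemannZeta_div`, `LSeries_eq_mul_integral`), so `∫_1^∞ (ψ(x) - x) x^(-s-1) dx = -(Zt'/Zt(s) + 1)/s`, and by parts (`Rx x = O(x²)`, boundary terms vanish since `Re s > 1`;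
`|ψ(x)| ≤ C x`: `Chebyshev.psi_le_const_mul_self`) `∫_1^∞ Rx(x) x^(-s-2) dx = Ph s`; substitute `x = e^u`. First parts: `Rx` is continuous and `|Rx x| ≤ C x²`. Uses ZT. -/
def RE_stmt : Prop := ContinuousOn Rx (Set.Ici 1) ∧ (∃ C : ℝ, ∀ x, 1 ≤ x → |Rx x| ≤ C * x ^ 2) ∧
  ∀ s : ℂ, 1 < s.re →
    ∫ u in Set.Ioi (0 : ℝ), (Rx (Real.exp u) : ℂ) * Complex.exp (-(s + 1) * u) = Ph s

/-- IV. Fourier inversion for `h(u) = Rx(e^u) e^(-3u)` (`u ≥ 0`), `0` (`u < 0`): continuous (`Rx 1 = 0`), integrable (`|Rx| ≤ C x²`), Fourier transform `y ↦ Ph(2 + 2πi y)` (RE), integrable (`|Zt'/Zt| ≤ C` on `Re s = 2`: `∑ Λ(n) n^(-2) + 1`, and `|s(s+1)| ≥ |s|²/..`).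
(`MeasureTheory.Integrable.fourierInv_fourier_eq` or `Continuous.fourierInv_fourier_eq`.) Uses RE, ZT. -/
def IV_stmt : Prop := ∀ x : ℝ, 1 ≤ x → Integrable (fun y : ℝ => Ph (2 + y * I) * (x : ℂ) ^ ((2 + y * I : ℂ) + 1)) ∧
  (Rx x : ℂ) = (1 / (2 * Real.pi) : ℝ) * ∫ y : ℝ, Ph (2 + y * I) * (x : ℂ) ^ ((2 + y * I : ℂ) + 1)

/-- VS. Vertical shift: rectangle theorem (`ct_shift` in `Pool/Agent/helper91/DM/CT.lean`, or `Complex.integral_boundary_rect_eq_zero_of_differentiableOn`) and `V → ∞`. -/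
def VS_stmt : Prop := ∀ (g : ℂ → ℂ) (a b C : ℝ), a ≤ b →
  (∀ s : ℂ, a ≤ s.re → s.re ≤ b → DifferentiableAt ℂ g s ∧ ‖g s‖ ≤ C * (1 + |s.im|) ^ (-(3 / 2) : ℝ)) →
  Integrable (fun y : ℝ => g ((a : ℂ) + y * I)) ∧ Integrable (fun y : ℝ => g ((b : ℂ) + y * I)) ∧
  ∫ y : ℝ, g ((a : ℂ) + y * I) = ∫ y : ℝ, g ((b : ℂ) + y * I)

/-- RB. `Rx x = (1/2π) ∫ Ph(σ1 + iy) x^(σ1+1+iy) dy` (IV, VS with `g(s) = Ph(s) x^(s+1)`, LD; `log(3+|y|)/|s(s+1)| ≤ C (1+|y|)^(-3/2)`), so `|Rx x| ≤ C x^(1+σ1)`. Uses ZT, LD, IV, VS. -/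
def RB_stmt : Prop := ∀ θ σ1 : ℝ, 1 / 2 ≤ θ → θ < σ1 → σ1 < 1 → (∀ s : ℂ, θ < s.re → riemannZeta s ≠ 0) →
  ∃ C : ℝ, 0 < C ∧ ∀ x : ℝ, 1 ≤ x → |Rx x| ≤ C * x ^ (1 + σ1)

/-- PS1. `ψ` is monotone: with `h = x^((1+σ)/2) / 2 ≤ x/2`: `h ψ(x) ≤ ∫_x^{x+h} ψ = Rx(x+h) - Rx(x) + x h + h²/2` and `h ψ(x) ≥ ∫_{x-h}^x ψ = Rx(x) - Rx(x-h) + x h - h²/2` (`x ≥ 2`; for `x < 2`: `ψ(x) = 0`). -/
def PS1_stmt : Prop := ∀ σ C : ℝ, 0 < σ → σ < 1 → 0 < C → (∀ x : ℝ, 1 ≤ x → |Rx x| ≤ C * x ^ (1 + σ)) →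
  ∃ C' : ℝ, 0 < C' ∧ ∀ x : ℝ, 1 ≤ x → |Chebyshev.psi x - x| ≤ C' * x ^ ((1 + σ) / 2)

/-- TH. `θ` from `QRH`, increased to `≥ 1/2`; RB, PS1, and `ψ - θ ≤ C √x` (`Chebyshev.psi_sub_theta_le_mul_sqrt`, `Chebyshev.theta_le_psi`). Uses RB, PS1. -/
def TH_stmt : Prop := QRH → ∃ φ C : ℝ, 1 / 2 ≤ φ ∧ φ < 1 ∧ 0 < C ∧
  ∀ y : ℝ, 1 ≤ y → |Chebyshev.theta y - y| ≤ C * y ^ φ

/-- CA. Analysis (`L = log X`): `e^(2v) ≥ 1 + 2v`, `(1+2v)(L-v) = (L+v) + 2v(L-v-1) ≥ L + v + vL` (`v ≤ L/16`, `L ≥ 4`); the terms with `ε` are at most `ε L (4 + 4v) ≤ vL` if `4 ε ≤ v (1 - 4ε)`, which holds for large `X`, `ε = C0 X^(-2κ)`, `v ≥ X^(-κ)`. -/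
def CA_stmt : Prop := ∀ κ C0 : ℝ, 0 < κ → κ ≤ 1 / 16 → 0 < C0 → ∃ X0 : ℝ, 1 ≤ X0 ∧ ∀ X v : ℝ, X0 ≤ X →
  X ^ (-κ) ≤ v → v ≤ κ * Real.log X →
  (1 + C0 * X ^ (-(2 * κ))) * (Real.log X + v) ≤
    Real.exp (2 * v) * (1 - C0 * X ^ (-(2 * κ))) * (Real.log X - v - C0 * X ^ (-(2 * κ)))

/-- CC. Counting (`κ = (1-φ)/8`, `h = X^(1-3κ)`, `b' = b+h`, `b'' = b+2h`, `X' = X²/b'`). `#(b, b'] ≤ (θ(b') - θ(b)) / log b ≤ (h + 2 C X^φ) / log b`, `#(X²/b'', X²/b'] ≥ (θ(X²/b') - θ(X²/b'')) / log (X²/b') ≥ (X² h/(b' b'') - 2 C X^((1+κ)φ)) / log (X²/b')`.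
Let `b' = X e^(-v)`: `v ≥ X^(-κ)` (`b'' ≤ X - X^(1-κ)`), `v ≤ κ log X`; `log (X²/b') = L + v`, `log b ≥ log b' - h/b ≥ L - v - X^(-2κ)`, `X²/(b' b'') = e^(2v) b'/b'' ≥ e^(2v) (1 - X^(-2κ))`, `X^φ/h ≤ X^(-2κ)`, `X^((1+κ)φ)/h ≤ X^(-4κ)`; CA with `C0 = 1 + 4C`. Uses CA, I4. -/
def CC_stmt : Prop := ∀ φ C : ℝ, 1 / 2 ≤ φ → φ < 1 → 0 < C → (∀ y : ℝ, 1 ≤ y → |Chebyshev.theta y - y| ≤ C * y ^ φ) →
  ∃ X0 : ℝ, 1 ≤ X0 ∧ ∀ X b : ℝ, X0 ≤ X → X ^ (1 - (1 - φ) / 8) ≤ b →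
  b + 2 * X ^ (1 - 3 * ((1 - φ) / 8)) ≤ X - X ^ (1 - (1 - φ) / 8) →
  pc (b + X ^ (1 - 3 * ((1 - φ) / 8))) - pc b ≤
    pc (X ^ 2 / (b + X ^ (1 - 3 * ((1 - φ) / 8)))) - pc (X ^ 2 / (b + 2 * X ^ (1 - 3 * ((1 - φ) / 8))))

/-- the set of primes which are matched -/
def Mt (κ X : ℝ) (p : ℕ) : Prop := p.Prime ∧ X ^ (1 - κ) < p ∧ (p : ℝ) ≤ X - 2 * X ^ (1 - κ)

/-- a matching of these primes with primes `> X` -/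
structure IsM (n : ℕ) (κ X : ℝ) (q : ℕ → ℕ) : Prop where
  prime : ∀ p, Mt κ X p → (q p).Prime
  gt : ∀ p, Mt κ X p → X < q p
  le : ∀ p, Mt κ X p → p * q p ≤ n
  close : ∀ p, Mt κ X p → (n : ℝ) - p * q p ≤ 2 * X ^ (2 - 2 * κ)
  small : ∀ p, Mt κ X p → (q p : ℝ) ≤ X ^ (1 + κ)
  inj : ∀ p p', Mt κ X p → Mt κ X p' → q p = q p' → p = p'

/-- MA. Blocks `b_j = X^(1-κ) + j h`, `h = X^(1-3κ)`, `X = √n`, `j` with `b_(j+2) ≤ X - X^(1-κ)`: by CC there is an injection of the primes of `(b_j, b_(j+1)]` into the primes of `(n/b_(j+2), n/b_(j+1)]`; the latter intervals are disjoint. Every `p` with `Mt` is in a block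
(`j = ⌈(p - b_0)/h⌉ - 1`, `b_(j+2) < p + 2h ≤ X - X^(1-κ)` as `2h ≤ X^(1-κ)` for large `X`). `p q ≤ b_(j+1) n/b_(j+1)`, `p q > b_j n/b_(j+2)`, so `n - p q ≤ 2 h n/b_(j+2) ≤ 2 X^(2-2κ)`; `q > n/b_(j+2) ≥ X`, `q ≤ n/b_0 = X^(1+κ)`. Uses CC. -/
def MA_stmt : Prop := ∀ φ C : ℝ, 1 / 2 ≤ φ → φ < 1 → 0 < C → (∀ y : ℝ, 1 ≤ y → |Chebyshev.theta y - y| ≤ C * y ^ φ) →
  ∃ n0 : ℕ, ∀ (n : ℕ) (X : ℝ), n0 ≤ n → 0 ≤ X → X ^ 2 = n → ∃ q : ℕ → ℕ, IsM n ((1 - φ) / 8) X q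

/-- BU. The set `S = {p q_p} ∪ {primes r < n, r > X, r not a q_p}` is admissible; `∑ S = ∑ p q_p + ∑_{X < r < n} r - ∑ q_p`. So `H n - G n ≤ ∑_{p ≤ X} p + n #{p ≤ X not matched} + ∑ (n - p q_p) + ∑ q_p ≤ X² + X² (3 X^(1-κ) + 1) + X · 2 X^(2-2κ) + X · X^(1+κ) ≤ 10 X^(3-κ)`. Uses I1. -/
def BU_stmt : Prop := ∀ (n : ℕ) (κ X : ℝ) (q : ℕ → ℕ), 0 < κ → κ ≤ 1 / 16 → 2 ≤ X → X ^ 2 = n →
  IsM n κ X q → (H n : ℝ) - G n ≤ 10 * X ^ (3 - κ)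

/-- FI. `κ = (1-φ)/8`, `c = κ/4`: `10 X^(3-κ) = 10 n^(3/2-κ/2) ≤ n^(3/2-κ/4)` for large `n`. Uses TH, MA, BU. -/
def FI_stmt : Prop := QRH → PS

/-- the final theorem -/
def MAIN_stmt : Prop := (PS ↔ QRH) ∧ ((∃ o : ℕ → ℝ, o =o[atTop] (1 : ℕ → ℝ) ∧
  ∀ᶠ n : ℕ in atTop, (G n : ℝ) > (H n : ℝ) - (n : ℝ) ^ (1 + o n)) → QRH)

theorem MAIN (hI5 : I5_stmt) (hI6 : I6_stmt) (hNO : NO_stmt) (hQR : QR_stmt) (hFI : FI_stmt) :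
    MAIN_stmt :=
  ⟨⟨fun h => hQR (hNO (hI5 h)), hFI⟩, fun h => hQR (hNO (hI5 (hI6 h)))⟩

end Pool.Agent.EV
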