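import Pool.Agent.helper6.EV.Spec
import Pool.Agent.helper11.EV.QR
import Pool.Agent.helper11.EV.ZT
import Pool.Agent.helper16.EV.BU
import Pool.Agent.helper18.EV.VS
import Pool.Agent.helper25.EV.FI
import Pool.Agent.helper25.EV.PS1
import Pool.Agent.helper27.EV.CO
import Pool.Agent.helper28.EV.MS1
import Pool.Agent.helper31.EV.I5
import Pool.Agent.helper32.EV.I4
import Pool.Agent.helper32.EV.SH
import Pool.Agent.helper34.EV.RB
import Pool.Agent.helper46.EV.MA
import Pool.Agent.helper50.EV.LD
import Pool.Agent.helper53.EV.CA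
import Pool.Agent.helper53.EV.I1
import Pool.Agent.helper53.EV.I6
import Pool.Agent.helper53.EV.LE
import Pool.Agent.helper55.EV.I2
import Pool.Agent.helper59.EV.TH
import Pool.Agent.helper61.EV.UB
import Pool.Agent.helper62.EV.NO
import Pool.Agent.helper62.EV.TU
import Pool.Agent.helper63.EV.CC
import Pool.Agent.helper65.EV.IN
import Pool.Agent.helper66.EV.I3
import Pool.Agent.helper67.EV.RE
import Pool.Agent.helper70.EV.JB
import Pool.Agent.helper72.EV.TL
import Pool.Agent.helper79.EV.LZ
import Pool.Agent.helper87.EV.IV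
import Pool.Agent.helper91.EV.MS
import Pool.Agent.helper92.EV.CN0
import Pool.Agent.helper98.EV.PW

/-!
# Project ev: assembly
-/

set_option autoImplicit false

namespace Pool.Agent.EV

theorem all_I3 : I3_stmt := I3 (I2 I1)
theorem all_I5 : I5_stmt := I5 all_I3 I4
theorem all_SH : SH_stmt := SH IN
theorem all_TL : TL_stmt := TL all_SH JB
theorem all_MS : MS_stmt := MS IN (MS1 IN all_SH)
theorem all_CO : CO_stmt := CO PW
theorem all_UB : UB_stmt := UB all_CO
theorem all_TU : TU_stmt := TU LE LZ
theorem all_NO : NO_stmt := NO all_CO all_UB all_TL all_TU all_MS CN0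
theorem all_IV : IV_stmt := IV ZT RE
theorem all_RB : RB_stmt := RB ZT (LD ZT) all_IV VS
theorem all_TH : TH_stmt := TH all_RB PS1
theorem all_MA : MA_stmt := MA (CC CA)
theorem all_FI : FI_stmt := FI all_TH all_MA (BU I1)

theorem all_MAIN : MAIN_stmt := MAIN all_I5 I6 all_NO QR all_FI

end Pool.Agent.EV
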